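import Pool.Agent.Lib.MP_7e5527_ag.EA.CR

/-! Arcs and algebraic germs. -/

open MvPowerSeries

noncomputable section

namespace Pool.Agent.E7

variable {k ι β : Type} [Field k] [CharZero k] [Fintype ι] [DecidableEq ι] [Fintype β]
  [DecidableEq β]

/-- A germ that is algebraic over the coordinates stays algebraic along an arc. -/
theorem LD.arc_alg (Λ : LD k ι β) {w : ι → PS Unit k} (h0 : C0 w) {g : PS ι k}
    (hg : g ∈ algS k Λ.x) : sb w g ∈ algS k fun j => sb w (Λ.x j) := by
  classical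
  obtain ⟨P, p1, p2⟩ := ad1_poly.1 hg
  have hP : P ≠ 0 := fun h => p1 (h ▸ Polynomial.map_zero _)
  let ev : MvPolynomial ι k →ₐ[k] PS Unit k := MvPolynomial.aeval fun j => sb w (Λ.x j)
  let q : Ideal (MvPolynomial ι k) := RingHom.ker ev.toRingHom
  have hq : ∀ t, MvPolynomial.C t ∈ q → t = 0 := fun t h => by
    have h1 : ev (MvPolynomial.C t) = 0 := h
    rw [MvPolynomial.aeval_C] at h1
    exact C_injective (h1.trans (map_zero _).symm)
  have h1 : ∃ N, ∃ i ∈ Finset.range (P.natDegree + 1), P.coeff i ∉ vlD q N := by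
    by_contra! h
    exact hP (Polynomial.leadingCoeff_eq_zero.1 (vlD_zero hq (P.leadingCoeff.totalDegree + 1) _
      (fun N => h N _ (Finset.self_mem_range_succ _)) fun ν hν =>
        MvPolynomial.coeff_eq_zero_of_totalDegree_lt hν))
  obtain ⟨N, hN⟩ := Nat.exists_eq_succ_of_ne_zero (n := Nat.find h1) fun e => by
    obtain ⟨i, -, hi⟩ := Nat.find_spec h1
    exact hi (e ▸ trivial)
  obtain ⟨a', ⟨i, hi, h2⟩, h3⟩ := vl_step (q := q) (Finset.range (P.natDegree + 1)) N P.coeff
    (fun i hi => not_not.1 fun e => Nat.find_min h1 (hN ▸ N.lt_succ_self) ⟨i, hi, e⟩)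
    (by simpa only [hN] using Nat.find_spec h1)
  have he : (sb w).comp (MvPolynomial.eval₂Hom C Λ.x) = ev.toRingHom :=
    MvPolynomial.ringHom_ext (fun c => by simp [ev, evx_C h0.ev]; rfl)
      fun l => by simp [ev]
  have h4 := h3 _ C Λ.x (fun l => (Λ.D l : PS ι k →ₗ[k] PS ι k).toAddMonoidHom) (fun i => g ^ i)
    ⟨fun l a b => (Λ.D l).leibniz a b, fun l a => (Λ.D l).map_algebraMap a, fun l i => Λ.D_x l i⟩
    (by
      rw [← Polynomial.eval₂_eq_sum_range]
      exact p2 ▸ zero_mem _)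
  have h5 : q.map (MvPolynomial.eval₂Hom C Λ.x) ≤ RingHom.ker (sb w) :=
    Ideal.map_le_iff_le_comap.2 fun a ha => (RingHom.congr_fun he a).trans ha
  have h6 : ∑ i ∈ Finset.range (P.natDegree + 1), ev (a' i) * sb w g ^ i = 0 := by
    rw [← show sb w _ = 0 from h5 h4, map_sum]
    refine Finset.sum_congr rfl fun i _ => ?_
    rw [map_mul, map_pow]
    exact congrArg (· * _) (RingHom.congr_fun he _).symm
  refine algS_root (P := ∑ i ∈ Finset.range (P.natDegree + 1), Polynomial.monomial i (a' i))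
    (fun h => h2 ?_) ?_
  · have h7 := congrArg (Polynomial.coeff · i) h
    simp only [Polynomial.coeff_map, Polynomial.finsetSum_coeff, Polynomial.coeff_monomial,
      Finset.sum_ite_eq', hi, if_true, Polynomial.coeff_zero] at h7
    exact h7
  · rw [Polynomial.eval₂_finsetSum, ← h6]
    exact Finset.sum_congr rfl fun i _ => Polynomial.eval₂_monomial _ _

omit [CharZero k] in
/-- Transport of an arc through a rational change of the variables. -/
theorem arc_tr (Λ Λ' : LD k ι β) {ζ : ι → PS ι k} (h0 : C0 ζ)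
    (hx : ∀ j, sb ζ (Λ.x j) = Λ'.x j) {Q0 : MvPolynomial ι k} {Q1 : ι → MvPolynomial ι k}
    (q0 : Q0.coeff 0 ≠ 0) (q1 : ∀ l, (Q0 : PS ι k) * ζ l = Q1 l) {y : ι → PS Unit k} (hy : C0 y)
    (hz : y ≠ 0) : ∃ w : ι → PS Unit k, C0 w ∧ w ≠ 0 ∧ (∀ l, w l ∈ algS k y) ∧
      ∀ j, sb w (Λ.x j) = sb y (Λ'.x j) := by
  have h3 : ∀ j, sb (fun l => sb y (ζ l)) (Λ.x j) = sb y (Λ'.x j) := fun j => by
    rw [← hx]
    exact (evx_sb hy.ev h0.ev (hy.ev.evx h0) _).symm
  refine ⟨fun l => sb y (ζ l), fun l => ?_, fun h => hz ?_, fun l => ?_, h3⟩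
  · rw [const_sb hy]
    exact h0 l
  · refine evx_inj Λ'.jac_unit (φ := C) hy.ev (C0.ev fun _ => map_zero _) fun j => ?_
    have h4 : (fun l => sb y (ζ l)) = fun _ => 0 := h
    rw [← h3, h4, evx_zero, ← hx]
    exact ((evx_zero _).trans (congrArg C (const_sb h0 _))).symm
  · have h4 : ∀ Q : MvPolynomial ι k, sb y (Q : PS ι k) ∈ algS k y := fun Q => by
      induction Q using MvPolynomial.induction_on with
      | C a =>
        rw [MvPolynomial.coe_C, evx_C hy.ev]
        exact Subalgebra.algebraMap_mem _ _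
      | add f g hf hg =>
        rw [MvPolynomial.coe_add, map_add]
        exact add_mem hf hg
      | mul_X f j hf =>
        rw [MvPolynomial.coe_mul, map_mul, MvPolynomial.coe_X, evx_X hy.ev]
        exact mul_mem hf (self_mem_algS j)
    refine algS_div (h4 Q0) (fun h => q0 ?_) ?_
    · have h5 := congrArg constantCoeff h
      rwa [const_sb hy, ← coeff_zero_eq_constantCoeff_apply, MvPolynomial.coeff_coe,
        map_zero] at h5
    · rw [← map_mul, q1]
      exact h4 _

end Pool.Agent.E7
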