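import Pool.Agent.Lib.MP_7e5527_ag.EF.C4
import Pool.Agent.Lib.MP_7e5527_ag.EF.GvA

/-! The expansions at a point of the domain. -/

open MvPowerSeries

noncomputable section

namespace Pool.Agent.E7

variable {p : ℕ} [Fact p.Prime] {e : ℂ_[p] ≃+* ℂ} {Δ : Subgroup Gb} {k0 : ℕ}

/-- The Taylor map at a point where the frame gives coordinates. -/
theorem og_tm {D : ℕ} {𝔉 : FS ℂ Ix (Fin D) (MvPolynomial Ix (RQ e))}
    {δ : Ix → Derivation ℤ (MvPolynomial Ix (RQ e)) (MvPolynomial Ix (RQ e))}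
    (e3 : 𝔉.d = fun i G => δ i G)
    (g3 : ∀ i G, MvPolynomial.aeval yF (δ i G) = dl i (MvPolynomial.aeval yF G)) (Z : HH) :
    ∃ T : MvPolynomial Ix (RQ e) →+* PS Ix ℂ,
      (∀ F : RQ e, T (MvPolynomial.C F) = tay (ext F) Z) ∧
      (∀ F : RQ e, constantCoeff (T (MvPolynomial.C F)) = (F : Fn) Z) ∧
      (constantCoeff (T (𝔉.f none)) ≠ 0 → constantCoeff (T 𝔉.br) ≠ 0 → 𝔉.TM T) := by
  obtain ⟨T, t1, t2, t3, t4⟩ := exists_tayH Z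
  have hH : RQ e ≤ Hol := oo_le.trans GQ_le_Hol
  obtain ⟨α, hα⟩ : ∃ α : MvPolynomial Ix (RQ e) →+* Hol,
      ∀ G, (α G : Fn) = MvPolynomial.aeval yF G :=
    ⟨MvPolynomial.eval₂Hom (Subalgebra.inclusion hH).toRingHom fun j => ⟨yF j, isHol_yF j⟩,
      fun G => MvPolynomial.eval₂_comp_left Hol.val.toRingHom _ _ G⟩
  have hαC : ∀ F : RQ e, (α (MvPolynomial.C F) : Fn) = F := fun F => by
    rw [hα, MvPolynomial.aeval_C]
    rfl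
  refine ⟨T.comp α, fun F => by rw [RingHom.comp_apply, t1, hαC],
    fun F => by rw [RingHom.comp_apply, t2, hαC], fun h1 h2 =>
      ⟨fun a => ?_, ⟨ycM, ycM_unit, fun l G => ?_⟩, h1, h2⟩⟩
  · rw [← t3]
    exact congrArg T (Subtype.ext (hαC _))
  · rw [RingHom.comp_apply, t4, e3]
    refine Finset.sum_congr rfl fun i _ => congrArg (fun x => _ * T x) (Subtype.ext ?_)
    rw [dH_coe, hα, hα, g3]

/-- The differential system at a point of the good open set. -/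
theorem u0_ld (e : ℂ_[p] ≃+* ℂ) : ∃ D : ℕ, ∀ Z ∈ U0, ∃ Λ : LD ℂ Ix (Fin D), Λ.x = xg Z := by
  obtain ⟨D, 𝔉, δ, e1, e2, e3, g1, -, g3, -⟩ := exists_fs (k0 := 4) Gm3_P Gm3_index Gm3_n
    four_pos (fq e) fun o => ⟨(ff_m2 o).1, (ff_m2 o).2.mono Gm3_two⟩
  refine ⟨D, fun Z hZ => ?_⟩
  obtain ⟨T, t1, t2, t3⟩ := og_tm e3 g3 ⟨Z, hZ.1⟩
  have hm : 𝔉.TM T := by
    refine t3 ?_ ?_
    · rw [e2, t2]
      exact (left_ext ThF hZ.1).symm.trans_ne hZ.2.1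
    · have h1 : ((Wr.br (TWE e).del (fun _ => ((4 : ℕ) : ℤ)) (fq e) : RQ e) : Fn) = JacF :=
        Wr.map_br (dl := (TWE e).del) (dl' := dl) (RQ e).val.toRingHom (fun _ _ => rfl) _ _
      rw [FS.br, e1, e2, e3, ← Wr.map_br (dl := (TWE e).del) (dl' := fun i G => δ i G)
        MvPolynomial.C fun i x => (g1 i x).symm, t2, h1]
      exact (left_ext JacF hZ.1).symm.trans_ne hZ.2.2
  obtain ⟨Λ, -, -, a1, -⟩ := FS.exists_ld hm hm ⟨1, one_ne_zero, fun n F _ => by simp⟩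
  refine ⟨Λ, funext fun j => ?_⟩
  rw [a1, FS.xs, e2, t1, t1]
  rfl

theorem cx_ld (hΔ : Δ ≤ GamP) (hi : Δ.relIndex Gam ≠ 0) (hn : ∀ B ∈ Lam, nE (toR ℂ B) ∈ Δ)
    (hk : 0 < k0) (E : Fr (TWE e)) (hE : ∀ o, MI Δ k0 (E.oe o)) {ψ : RQ e →+* ℂ_[p]}
    (hψ : E.Gp ψ) (hl : (TWE e).Lin ψ) (Z : HH) {c : ℂ} (hc : c ≠ 0)
    (hv : ∀ (n : ℕ) (F : RQ e), MI Δ n F → (F : Fn) Z = c ^ n * e (ψ F))
    {τs : RQ e →+* PS Ix ℂ_[p]} (hs : (TWE e).Ts ψ τs) :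
    ∃ (D : ℕ) (Λ Λ' : LD ℂ Ix (Fin D)) (ζ : Ix → PS Ix ℂ) (T : RQ e →+* PS Ix ℂ)
      (Q0 : MvPolynomial Ix ℂ) (Q1 : Ix → MvPolynomial Ix ℂ), C0 ζ ∧
      (∀ j, sb ζ (Λ.x j) = Λ'.x j) ∧ Q0.coeff 0 ≠ 0 ∧ (∀ l, (Q0 : PS Ix ℂ) * ζ l = Q1 l) ∧
      (∀ j, Λ'.x j = map (e : ℂ_[p] →+* ℂ) (E.xc τs j)) ∧ (∀ F, T F = tay (ext F) Z) ∧
      (∀ a, T (algebraMap ℂ _ a) = C a) ∧ IsUnit (T (E.oe none)) ∧
      ∀ j, Λ.x j = T (E.oe (some j)) * Ring.inverse (T (E.oe none)) := by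
  obtain ⟨D, 𝔉, δ, e1, e2, e3, g1, g2, g3, g4⟩ := exists_fs hΔ hi hn hk E.oe hE
  obtain ⟨T, t1, t2, t3⟩ := og_tm e3 g3 Z
  have hs' := hs.map (e : ℂ_[p] →+* ℂ)
  generalize hφ : (MvPowerSeries.map (e : ℂ_[p] →+* ℂ)).comp τs = φ at hs'
  have hφc : ∀ a : ℂ, φ (algebraMap ℂ (RQ e) a) = C a := fun a => by
    have h1 : ∀ l, (TWE e).del l (algebraMap ℂ (RQ e) a) = 0 := fun l => Subtype.ext (dl_const l a)
    have h2 : algebraMap ℂ (RQ e) a = (TWE e).cst (e.symm a) :=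
      congrArg (algebraMap ℂ (RQ e)) (e.apply_symm_apply a).symm
    rw [ps_const (f := φ _) fun l => by rw [hs'.der, h1, map_zero], hs'.const, h2,
      RingHom.comp_apply, hl]
    exact congrArg C (e.apply_symm_apply a)
  obtain ⟨τ', u1, u2⟩ : ∃ τ' : MvPolynomial Ix (RQ e) →+* PS Ix ℂ,
      (∀ F, τ' (MvPolynomial.C F) = φ F) ∧ ∀ l G, pderiv ℂ l (τ' G) = τ' (δ l G) :=
    ⟨_, fun F => MvPolynomial.eval₂Hom_C _ _ F,
      c4_der φ _ _ (TWE e).del δ (hφc _) hs'.der g1 g2⟩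
  have hne : ∀ {x : ℂ_[p]}, IsUnit x → e x ≠ 0 := fun hx => (hx.map e).ne_zero
  have hcp : 𝔉.Cp T τ' := ⟨c, hc, fun n G hG => by
    obtain ⟨F, rfl, hF⟩ := g4 n G hG
    rw [t2, hv n F hF, u1, hs'.const]
    rfl⟩
  have hm' : 𝔉.TM τ' := by
    refine ⟨fun a => ?_, ⟨1, by rw [Matrix.det_one]; exact isUnit_one, fun l G => ?_⟩, ?_, ?_⟩
    · rw [MvPolynomial.algebraMap_apply, u1, hφc]
    · rw [u2, e3, Finset.sum_eq_single l (fun i _ h => by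
        rw [Matrix.one_apply_ne h, map_zero, zero_mul]) (fun h => absurd (Finset.mem_univ l) h),
        Matrix.one_apply_eq, map_one, one_mul]
    · rw [e2, u1, hs'.const]
      exact hne hψ.unit
    · rw [FS.br, e1, e2, e3, ← Wr.map_br (dl := (TWE e).del) (dl' := fun i G => δ i G)
        MvPolynomial.C fun i x => (g1 i x).symm, u1, hs'.const, RingHom.comp_apply,
        Fr.br_eq hψ.unit]
      exact hne (((Int.cast_ne_zero.2 (Nat.cast_ne_zero.2 hk.ne')).isUnit.mul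
        (hψ.unit.pow _)).mul hψ.Jm_det.isUnit)
  have hm : 𝔉.TM T := by
    obtain ⟨c', c1, c2⟩ := hcp
    refine t3 ?_ ?_
    · rw [c2 _ _ (𝔉.fm none)]
      exact mul_ne_zero (pow_ne_zero _ c1) hm'.e0
    · rw [c2 _ _ FS.br_fm]
      exact mul_ne_zero (pow_ne_zero _ c1) hm'.br
  obtain ⟨Λ, Λ', ζ, a1, a2, a3, a4, a5, a6⟩ := FS.exists_ld hm hm' hcp
  obtain ⟨Q0, Q1, q0, q1⟩ := LD.rev Λ Λ' a3 a4 a5 a6
  have hu : IsUnit (τs E.e0) := by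
    rw [isUnit_iff_constantCoeff, hs.const]
    exact hψ.unit
  refine ⟨D, Λ, Λ', ζ, T.comp MvPolynomial.C, Q0, Q1, a3, a4, q0, q1, fun j => ?_, t1, hm.cst,
    ?_, fun j => ?_⟩
  · rw [a2, FS.xs, e2, u1, u1, ← hφ, Fr.xc, Fr.nz, pow_one, map_mul, c4_inv _ hu]
    rfl
  · have h1 := hm.e0
    rw [e2] at h1
    exact isUnit_iff_constantCoeff.2 h1.isUnit
  · rw [a1, FS.xs, e2]
    rfl

end Pool.Agent.E7
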