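import Pool.Agent.Lib.MP_7e5527_ag.EG.B

/-! Translation of a point into the good open set. -/

open MvPowerSeries Filter Topology

noncomputable section

namespace Pool.Agent.E7

variable {p : ℕ} [Fact p.Prime] {e : ℂ_[p] ≃+* ℂ} {Δ : Subgroup Gb} {k0 : ℕ}

theorem tay_tr (k : ℤ) (B : Ix → ℚ) (F : Fn) {Z : Ix → ℂ} (hZ : Z ∈ HH) :
    tay (ext (sl k (nE (toR ℂ B)) F)) Z = tay (ext F) (Z + toR ℂ B) := by
  have h1 : ∀ L : List Ix, L.foldr dG (fun W => ext F (W + toR ℂ B)) =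
      fun W => L.foldr dG (ext F) (W + toR ℂ B) := fun L => by
    induction L with
    | nil => rfl
    | cons l L ih =>
      funext W
      rw [List.foldr_cons, ih, dG, fderiv_comp_add_right]
      rfl
  have h2 : ext (sl k (nE (toR ℂ B)) F) =ᶠ[𝓝 Z] fun W => ext F (W + toR ℂ B) := by
    filter_upwards [isOpen_HH.mem_nhds hZ] with W hW
    rw [left_ext _ hW, sl_nE]
    rfl
  exact (tyG_congr h2).trans (funext fun ν => congrArg _ (congrFun (h1 _) Z))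

/-- The translates of the forms of the second level are forms for a group of finite index. -/
theorem tr_level {g : Gb} (hg : g ∈ GG) : ∃ Δ' : Subgroup Gb, Δ' ≤ Gam ∧ Δ'.relIndex Gam ≠ 0 ∧
    ∀ k F, M2 k F → MI Δ' k (sl k g F) := by
  obtain ⟨Δ', h1, h2, h3⟩ := exists_level Gam2_le Gam2_index hg
  refine ⟨Δ', h1, h2, fun k F hF => ⟨hF.1.slash hg, fun δ hδ => ?_⟩⟩
  have h6 := h3 δ hδ 1 (one_mem _) 1 (one_mem _)
  rw [one_mul, mul_one] at h6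
  rw [← sl_mul k hg (Gam_le (h1 hδ)), ← inv_mul_cancel_right (g * δ) g,
    sl_mul k (Gam_le (Gam2_le h6)) hg, hF.2 _ h6]

theorem tr_RQ (e : ℂ_[p] ≃+* ℂ) (B : Ix → ℚ) {k : ℤ} {F : Fn} (hF : M2 k F) :
    sl k (nE (toR ℂ B)) F ∈ RQ e := by
  have h := hF.1.slash (nE_mem_GG B)
  refine h.mem_RQ (E7.mem_GZ.2 ⟨h.gd, fun _ hT => h.gd.spec.supp_Lam (k := k) (fun B' hB => ?_) hT⟩)
  rw [← sl_mul k (nE_mem_GG B) (nE_mem_GG B'), ← nE_add, add_comm, nE_add,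
    sl_mul k (nE_mem_GG B') (nE_mem_GG B), hF.2 _ (nE_mem_Gam2 hB)]

theorem pt_tr (hΔ : Δ ≤ Gam) (hi : Δ.relIndex Gam ≠ 0) (hk : 0 < k0) {f : Option Ix → RQ e}
    (hf : ∀ o, MI Δ k0 (f o)) {Z : Ix → ℂ} (hZ : Z ∈ HH) {B : Ix → ℚ} (hB : Z + toR ℂ B ∈ U0)
    {T : RQ e →+* PS Ix ℂ} (t1 : ∀ F, T F = tay (ext F) Z)
    (t2 : ∀ a, T (algebraMap ℂ _ a) = C a) (hu : IsUnit (T (f none))) {x : Ix → PS Ix ℂ}
    (hJ : IsUnit (jacS x).det) (hx : ∀ j, x j = T (f (some j)) * Ring.inverse (T (f none)))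
    (j : Ix) : xg (Z + toR ℂ B) j ∈ algS ℂ x := by
  obtain ⟨Δ', h1, h2, h3⟩ := tr_level (nE_mem_GG B)
  let G : Option Ix → RQ e := fun o => ⟨_, tr_RQ e B (ff_m2 o)⟩
  have hG : ∀ o, T (G o) = tay (ext (FF Thi o)) (Z + toR ℂ B) := fun o =>
    (t1 _).trans (tay_tr 4 B _ hZ)
  have h4 : ∀ o, T (G o) ^ k0 * Ring.inverse (T (f none)) ^ 4 ∈ algS ℂ x := fun o => by
    obtain ⟨P, p0, p1⟩ := exists_rel (Δ := Δ ⊓ Δ') (inf_le_left.trans hΔ)
      (Subgroup.relIndex_inf_ne_zero hi h2) (f := f) (w := 4) (F := G o)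
      (fun o => ⟨(hf o).1, (hf o).2.mono inf_le_left⟩)
      ⟨(h3 _ _ (ff_m2 o)).1, (h3 _ _ (ff_m2 o)).2.mono inf_le_right⟩
    have h5 := p1 T _ t2 (Ring.inverse_mul_cancel _ hu)
    rw [← funext hx] at h5
    exact algS_root (P := P) (fun h => p0 ((Polynomial.map_eq_zero_iff
      (indep_of_jac hJ)).1 h)) h5
  have h5 : IsUnit (T (G none)) := by
    rw [hG, isUnit_iff_constantCoeff]
    exact ((tyG_zero _ _).trans_ne hB.2.1).isUnit
  have h6 : xg (Z + toR ℂ B) j * T (G none) = T (G (some j)) := by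
    rw [xg, hG (some j), ← show T (G none) = tay (ext ThF) (Z + toR ℂ B) from hG none,
      Ring.inverse_mul_cancel_right _ _ h5]
    rfl
  refine IsAlgebraic.of_pow hk (algS_div (h4 none)
    ((h5.pow _).mul (hu.ringInverse.pow _)).ne_zero ?_)
  rw [mul_right_comm, ← mul_pow, mul_comm (T (G none)), h6]
  exact h4 _

end Pool.Agent.E7
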