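import Pool.Agent.Lib.MP_7e5527_ag.EG.B
import Pool.Agent.Lib.MP_7e5527_ag.EF.GMain

/-! No arc of small defect passes through a jointly generic point. -/

open MvPowerSeries

noncomputable section

namespace Pool.Agent.E7

variable {m r d : ℕ} {Z : Fin m → Ix → ℂ}

theorem genw (hm : 0 < m) (hr : r + m * d ≤ m * 27) (hZ : ∀ i, Z i ∈ U0) (hg : JG Z)
    {H : Fin m → (Fin (d + 1) → Ix) → MvPolynomial (Fin (d + 1)) ℂ} (hH : ∀ i s, H i s ≠ 0) :
    GenV r (Algebra.adjoin ℂ (Set.range (xm Z)))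
      {f | ∃ i s, f = rename (Prod.mk i)
        (MvPolynomial.aeval (fun a => xg (Z i) (s a)) (H i s))} := by
  intro L _ φ hX hc hV
  refine ⟨?_, fun n g c ω ha hω => ?_⟩
  · obtain ⟨s⟩ : Nonempty (Fin (r + m * d) ↪ Fin m × Ix) :=
      Function.Embedding.nonempty_of_card_le (by simpa using hr)
    refine ⟨m * d, s, fun Q hQ => MvPolynomial.rename_injective s s.injective ?_, fun g => ?_⟩
    · rw [map_zero]
      exact g7_one hZ hg ⟨0, hm⟩ hX hc (by rw [g7_coe, MvPolynomial.eval₂_rename]; exact hQ)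
    · let : Algebra ℂ L := (φ.comp C).toAlgebra
      let ψ : PS (Fin m × Ix) ℂ →ₐ[ℂ] L := { φ with commutes' := fun _ => rfl }
      have h1 : Dep ℂ (m * d) fun q : Fin m × Ix => ψ (xm Z (q.1, q.2)) :=
        Dep.pi (z := fun i j => ψ (xm Z (i, j))) fun i => dep_iff.2 fun s => ⟨H i s, hH i s, by
          rw [← hV _ ⟨i, s, rfl⟩]
          exact (MvPolynomial.comp_aeval_apply _ (ψ.comp (rename (Prod.mk i))) (H i s)).symm⟩
      refine dep_iff.1 (h1.alg (y := fun a => φ (g a)) fun a => ?_) id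
      obtain ⟨p, hp⟩ := (Algebra.adjoin_range_eq_range_aeval ℂ (xm Z)).le (g a).2
      rw [← show MvPolynomial.aeval (xm Z) p = g a from hp]
      exact (MvPolynomial.comp_aeval_apply _ ψ p).symm ▸ Algebra.adjoin_le
        (Set.range_subset_iff.2 self_mem_algS)
        ((Algebra.adjoin_range_eq_range_aeval ℂ _).ge ⟨p, rfl⟩)
  · by_cases h0 : ω = 0
    · exact Or.inl (h0 ▸ zero_mem _)
    obtain ⟨q, hq⟩ := Function.ne_iff.1 h0
    refine Or.inr ⟨MvPolynomial.X q, 1, by simp, by simpa using g7_two hZ hg hX hc q,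
      fun v hv _ => ?_⟩
    simp only [hω] at hq hv
    have h1 := g7_three hZ hg hX hc g ha hq hv
    refine Finset.sum_eq_zero fun q' _ => ?_
    by_cases e : q' = q
    · simp [e, h1]
    · simp [pderiv_X, e]

theorem og_end (hm : 0 < m) (hr : r + m * d ≤ m * 27) (hZ : ∀ i, Z i ∈ U0) (hg : JG Z)
    {w : Fin m → Ix → PS Unit ℂ} (h0 : ∀ i, C0 (w i)) (hw : ∀ i, w i ≠ 0)
    (h1 : Dep ℂ r fun q : Fin m × Ix => w q.1 q.2)
    (h2 : ∀ i, Dep ℂ d fun j => sb (w i) (xg (Z i) j)) : False := by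
  obtain ⟨e, -⟩ := exists_equiv_ker 2 (Int.castRingHom _) (Int.castRingHom _) fun r => by simp
  obtain ⟨D, hD⟩ := u0_ld e
  choose Λ hΛ using fun i => hD _ (hZ i)
  choose H hH h3 using fun i => dep_iff.1 (h2 i)
  refine as_main Λ (Algebra.adjoin ℂ (Set.range (xm Z)))
    (fun i j => Algebra.subset_adjoin ⟨(i, j), by rw [hΛ]; rfl⟩) (genw hm hr hZ hg hH) h0 hw hm h1 ?_
  rintro _ ⟨i, s, rfl⟩
  refine ⟨i, _, 1, 0, isUnit_one, rfl, ?_, ?_⟩
  · rw [zero_add, pow_one, mul_one, hΛ]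
    exact Algebra.adjoin_le (Set.range_subset_iff.2 fun a => self_mem_algS (s a))
      ((Algebra.adjoin_range_eq_range_aeval ℂ _).ge ⟨_, rfl⟩)
  · rw [← h3 i s]
    exact FS.cf2_hom _ _ (fun c => evx_C (h0 i).ev c) _

end Pool.Agent.E7
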