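import Pool.Agent.Lib.MP_7e5527_ag.EF.Fin
import Pool.Agent.Lib.MP_7e5527_ag.EF.C3
import Pool.Agent.Lib.MP_7e5527_ag.E7.Match

/-! Rational translates into the good set, and finiteness of the fibres of `SamePt`. -/

open Filter Topology

noncomputable section

namespace Pool.Agent.E7

open Cardinal in
theorem og_equiv (p : ℕ) [Fact p.Prime] : Nonempty (ℂ_[p] ≃+* ℂ) := by
  have h1 : #ℚ_[p] ≤ 𝔠 := by
    refine mk_quotient_le.trans ((mk_subtype_le _).trans ?_)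
    simp
  have h2 : #(PadicAlgCl p) ≤ 𝔠 :=
    (Algebra.IsAlgebraic.cardinalMk_le_max ℚ_[p] _).trans (max_le h1 aleph0_le_continuum)
  have h3 : ∀ x : ℂ_[p], ∃ u : ℕ → PadicAlgCl p,
      Tendsto (fun n => (u n : ℂ_[p])) atTop (𝓝 x) := fun x => by
    obtain ⟨v, hv, hx⟩ := mem_closure_iff_seq_limit.1 (UniformSpace.Completion.denseRange_coe x)
    choose u hu using hv
    exact ⟨u, by simpa only [hu] using hx⟩
  choose u hu using h3
  have h4 : #ℂ_[p] ≤ 𝔠 := by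
    refine (mk_le_of_injective (f := u) fun x y h => tendsto_nhds_unique (hu x) (h ▸ hu y)).trans ?_
    rw [mk_arrow, lift_id, lift_id, mk_nat]
    exact (power_le_power_right h2).trans continuum_power_aleph0.le
  have h5 : #ℂ_[p] = 𝔠 := h4.antisymm (continuum_le_cardinal_of_nontriviallyNormedField _)
  exact IsAlgClosed.ringEquiv_of_equiv_of_charZero (by rw [h5]; exact aleph0_lt_continuum)
    (Cardinal.eq.1 (h5.trans mk_complex.symm))

/-- A good function that vanishes on all rational translates of a point is zero. -/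
theorem og_real {G : Fn} (hG : Gd G) {Z : Ix → ℂ} (hZ : Z ∈ HH)
    (h : ∀ B : Ix → ℚ, ext G (Z + toR ℂ B) = 0) : G = 0 := by
  have hm : ∀ X : Ix → ℝ, (Z + fun l => (X l : ℂ)) ∈ HH := fun X => by
    have e : (fun l => ((Z + fun l => (X l : ℂ)) l).im) = fun l => (Z l).im := by
      funext l
      simp
    show (fun l => ((Z + fun l => (X l : ℂ)) l).im) ∈ Om
    rw [e]
    exact hZ
  have h1 : ∀ X : Ix → ℝ, ext G (Z + fun l => (X l : ℂ)) = 0 := fun X => by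
    refine DenseRange.induction_on
      (DenseRange.piMap fun _ : Ix => (Rat.denseRange_cast (𝕜 := ℝ))) X
      (isClosed_eq (continuous_iff_continuousAt.2 fun X => ?_) continuous_const) fun B => ?_
    · exact ContinuousAt.comp (f := fun X : Ix → ℝ => Z + fun l => (X l : ℂ))
        (hG.isHol.differentiableAt (hm X)).continuousAt (Continuous.continuousAt (by fun_prop))
    · exact h B
  funext W
  let X : Ix → ℝ := fun l => (W.1 l - Z l).re
  let Y : Ix → ℝ := fun l => (W.1 l - Z l).im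
  let φ : ℂ →ᵃ[ℂ] (Ix → ℂ) :=
    AffineMap.lineMap (Z + fun l => (X l : ℂ)) (Z + fun l => ((X l + Y l : ℝ) : ℂ))
  have hd : Differentiable ℂ φ := fun t => φ.differentiableAt
  have e0 : ∀ t : ℝ, φ t = Z + fun l => ((X l + t * Y l : ℝ) : ℂ) := fun t => by
    funext l
    simp [φ, AffineMap.lineMap_apply]
    ring
  have e1 : φ Complex.I = W.1 := by
    funext l
    have := Complex.re_add_im (W.1 l - Z l)
    simp only [φ, AffineMap.lineMap_apply, vsub_eq_sub, vadd_eq_add, Pi.add_apply, Pi.smul_apply,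
      Pi.sub_apply, smul_eq_mul, Complex.ofReal_add, X, Y]
    linear_combination this
  have hU : IsOpen (φ ⁻¹' HH) := isOpen_HH.preimage hd.continuous
  have ha : AnalyticOnNhd ℂ (ext G ∘ φ) (φ ⁻¹' HH) := DifferentiableOn.analyticOnNhd
    (fun t ht => ((hG.isHol.differentiableAt ht).comp t (hd t)).differentiableWithinAt) hU
  have h2 : Tendsto ((↑) : ℝ → ℂ) (𝓝[≠] 0) (𝓝[≠] ((0 : ℝ) : ℂ)) :=
    Complex.continuous_ofReal.continuousWithinAt.tendsto_nhdsWithin fun x hx => by simpa using hx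
  have h3 := ha.eqOn_zero_of_preconnected_of_frequently_eq_zero
    (a6_convex.affine_preimage ⟨φ, φ.linear.restrictScalars ℝ, φ.map_vadd'⟩).isPreconnected
    (z₀ := ((0 : ℝ) : ℂ)) (show φ _ ∈ HH from e0 0 ▸ hm _)
    (h2.frequently (Eventually.of_forall fun t => by
      rw [Function.comp_apply, e0, h1]).frequently)
    (show φ Complex.I ∈ HH from e1 ▸ W.2)
  rw [Function.comp_apply, e1] at h3
  exact (congrFun (res_ext G) W).symm.trans h3

theorem exists_tr {Z : Ix → ℂ} (hZ : Z ∈ HH) : ∃ B : Ix → ℚ, Z + toR ℂ B ∈ U0 := by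
  obtain ⟨e⟩ := og_equiv 2
  by_contra hn
  have h1 : JacF * ThF = 0 := og_real (mul_mem JacF_mem ThF_mem).1 hZ fun B => by
    by_contra h
    exact hn ⟨B, HH.add_toR hZ B, right_ne_zero_of_mul h, left_ne_zero_of_mul h⟩
  obtain ⟨q, hq⟩ := exists_chr e (Y := one3) (by rw [toR_one3]; exact one3_mem)
  have h2 := norm_evq_ThF e hq
  rw [c3_dom JacF_mem.1 ThF_mem.1 (JacF_ne e) h1, evq_zero, norm_zero] at h2
  exact zero_ne_one h2

/-- The twisted complex characters. -/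
def og_ψ {c : ℂ} (hc : c ≠ 0) {Δ : Subgroup Gb} (hΔ : Δ ≤ Gam) {γ : Gb} (hγ : γ ∈ Gam) (Z : HH) :
    mat1_S hΔ →* ℂ where
  toFun x := c ^ x.1.1.toAdd * sl x.1.1.toAdd γ x.1.2 Z
  map_one' := by
    change c ^ (0 : ℤ) * sl 0 γ 1 Z = 1
    rw [sl_zero_one, zpow_zero, one_mul, Pi.one_apply]
  map_mul' x y := by
    rw [mat1_mul hΔ hγ, Pi.mul_apply]
    change c ^ (x.1.1.toAdd + y.1.1.toAdd) * _ = _
    rw [zpow_add₀ hc]
    ring

theorem same_lift {Δ : Subgroup Gb} (hΔ : Δ ≤ Gam) (hi : Δ.relIndex Gam ≠ 0) {Y Z : HH}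
    (h : SamePt (Y : Ix → ℂ) Z) :
    ∃ γ ∈ Gam, ∃ c : ℂ, c ≠ 0 ∧ ∀ k F, MI Δ k F → sl k γ F Y = c ^ k * F Z := by
  obtain ⟨c, hc, hT⟩ := h
  obtain ⟨τ, _, ⟨R⟩⟩ := exists_trans hΔ hi
  obtain ⟨t, δ, hδ, h1⟩ := R.cover 1 (one_mem _)
  have ht : R.rep t ∈ Δ := by
    rw [eq_inv_of_mul_eq_one_right h1.symm]
    exact inv_mem hδ
  obtain ⟨s, hs⟩ := char_match (fun t => mat1_χ hΔ (R.mem t) Y)
    (fun t => og_ψ hc hΔ (R.mem t) Z) (fun x => by
      obtain ⟨h2, h3⟩ := R.trace hΔ x.2.1 x.2.2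
      have h4 := hT _ _ _ (isMF_ext h2.gd h3)
      rw [ext, ext, ofC_coe, ofC_coe, Finset.sum_apply, Finset.sum_apply, Finset.mul_sum] at h4
      exact h4) t
  refine ⟨R.rep s, R.mem s, c, hc, fun k F hF => ?_⟩
  have h2 : c ^ k * sl k (R.rep t) F Z = sl k (R.rep s) F Y :=
    DFunLike.congr_fun hs ⟨(Multiplicative.ofAdd k, F), hF⟩
  rw [← h2, hF.2 _ ht]

theorem same_fin {s : Ix → ℂ} (hs : s ∈ HH) : ∃ S : Set (Ix → ℂ), S.Finite ∧ S ⊆ HH ∧
    ∀ Z ∈ HH, SamePt Z s → ∃ t ∈ S, ∃ γ ∈ Gam, Z = act γ t := by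
  obtain ⟨B, hB⟩ := exists_tr hs
  have hg := nE_mem_GG B
  obtain ⟨Δ, h1, h2, h3⟩ := exists_level Gam2_le Gam2_index hg
  obtain ⟨S, s1, s2, s3⟩ := fin_prop hB
  obtain ⟨T, t1, t2⟩ := double_coset (inv_mem hg)
  refine ⟨Set.image2 act T S, T.finite_toSet.image2 _ s1, ?_, fun Z hZ h => ?_⟩
  · rintro _ ⟨x, hx, y, hy, rfl⟩
    exact (act_spec (t1 x hx) (s2 hy)).2.1
  obtain ⟨γ, hγ, c, hc, h4⟩ := same_lift h1 h2 (Y := ⟨Z, hZ⟩) (Z := ⟨s, hs⟩) h
  obtain ⟨j1, j2, -⟩ := act_spec (Gam_le hγ) hZ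
  obtain ⟨y, hy, δ, hδ, h5⟩ := s3 _ (HH.add_toR j2 B)
    ⟨(jf γ Z * c) ^ 4, pow_ne_zero _ (mul_ne_zero j1 hc), fun w G hG => by
      have h5 := h4 _ (sl (w * 4) (nE (toR ℂ B)) G) ⟨hG.1.slash hg, fun δ hδ => by
        have h6 := h3 δ hδ 1 (one_mem _) 1 (one_mem _)
        rw [one_mul, mul_one] at h6
        rw [← sl_mul _ hg (Gam_le (h1 hδ)), ← inv_mul_cancel_right (nE (toR ℂ B) * δ)
          (nE (toR ℂ B)), sl_mul _ (Gam_le (Gam2_le h6)) hg, hG.2 _ h6]⟩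
      simp only [sl, jf_nE, act_nE, one_zpow, one_mul, coe_ofC j2] at h5
      have h7 : (jf γ Z * c) ^ ((w : ℤ) * 4) = ((jf γ Z * c) ^ 4) ^ w := by
        rw [← pow_mul, ← zpow_natCast, mul_comm 4 w, Nat.cast_mul, Nat.cast_ofNat]
      rw [ext, ext, ← h7, mul_zpow, mul_assoc, ← h5, ← mul_assoc, zpow_neg,
        mul_inv_cancel₀ (zpow_ne_zero _ j1), one_mul]⟩
  have hδ' := Gam2_le hδ
  obtain ⟨γ', hγ', x, hx, h6⟩ := t2 δ hδ'
  refine ⟨act x y, Set.mem_image2_of_mem hx hy, γ⁻¹ * γ', mul_mem (inv_mem hγ) hγ', ?_⟩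
  rw [← act_mul (Gam_le (mul_mem (inv_mem hγ) hγ')) (t1 x hx) (s2 hy), mul_assoc, ← h6,
    act_mul (inv_mem (Gam_le hγ)) (mul_mem (inv_mem hg) (Gam_le hδ')) (s2 hy),
    act_mul (inv_mem hg) (Gam_le hδ') (s2 hy), ← h5, ← act_nE, ← act_mul (inv_mem hg) hg j2,
    inv_mul_cancel, act_one, ← act_mul (inv_mem (Gam_le hγ)) (Gam_le hγ) hZ, inv_mul_cancel,
    act_one]

end Pool.Agent.E7
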