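import Pool.Agent.Lib.MP_7e5527_ag.EF.C2
import Pool.Agent.Lib.MP_7e5527_ag.EO.QR
import Pool.Agent.Lib.MP_7e5527_ag.EO.OM
import Pool.Agent.Lib.MP_7e5527_ag.EA.ZB
import Pool.Agent.Lib.MP_7e5527_ag.EA.AT

/-! Conjugate points of the Igusa tower. -/

open MvPowerSeries

noncomputable section

namespace Pool.Agent.E7

variable {p : ℕ} [Fact p.Prime] {e : ℂ_[p] ≃+* ℂ} {χ χ' : Fn → ℂ_[p]} {ρ : ℂ_[p] →+* ℂ_[p]}
  {A : Matrix Ix Ix ℚ} {cA : ℚ} {Δ : Subgroup Gb}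

/-- A translation multiplies a class sum by a root of unity. -/
theorem cj_tr {F : Fn} (h : Gd F) {N : ℕ} (hN : 0 < N) {B : Ix → ℚ} (hB : (N : ℚ) • B ∈ Lam)
    (T0 : Ix → ℚ) : opP 1 B (clsF N T0 F) = eT T0 (toR ℂ B) • clsF N T0 F := by
  have h1 := (clsF_span h hN T0).1
  have h2 : GoodC (opP 1 B (clsF N T0 F)) (eT T0 (toR ℂ B) • clc N T0 (cf F)) :=
    mfs_congr (h1.opP IsSim.one B) fun T => by
      rw [adjM_one, inv_one, lin_one, Pi.smul_apply, smul_eq_mul, mul_comm]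
      by_cases h0 : clc N T0 (cf F) T = 0
      · rw [h0, mul_zero, mul_zero]
      obtain ⟨n, hn⟩ := Lam.tr_int (qr1_clc h0).1 hB
      rw [tr_smul_left, tr_smul_right, inv_mul_cancel_left₀ (Nat.cast_ne_zero.2 hN.ne')] at hn
      have h3 := eT_add (T - T0) T0 (toR ℂ B)
      rw [sub_add_cancel, (eT_eq_one _ _).2 ⟨n, hn⟩, one_mul] at h3
      rw [h3]
  exact funext fun Z => (h2.sum Z).unique ((h1.smul _).sum Z)

theorem cj_ic {F : Fn} (h : Gd F) (iF : IntC F) (hA : IsSim A cA) : IntC (opP A 0 F) := fun T => by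
  rw [(h.spec.opP hA 0).cf_eq]
  simpa only [qr1_eT, mul_one] using iF _

/-- The value at a translate through the class sums. -/
theorem cj_val (h : FC e χ) (hA : IsSim A cA) {N : ℕ} (hN : 0 < N) {B : Ix → ℚ}
    (hB : (N : ℚ) • B ∈ Lam) {k : ℤ} {F : Fn} (hF : MF k F) (hZ : F ∈ GZ) :
    χ (opP A B F) = ∑ c : Ix → Fin N,
      e.symm (eT (vec (rp c)) (toR ℂ B)) * χ (opP A 0 (clsF N (vec (rp c)) F)) := by
  have h1 : F = ∑ c : Ix → Fin N, clsF N (vec (rp c)) F := by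
    have h2 := congrArg Subtype.val (TW.cs_sum (S := TWE e) hN ⟨F, hF.mem_RQ hZ⟩)
    rw [AddSubmonoidClass.coe_finsetSum] at h2
    simpa only [TWE_cs hN] using h2.symm
  conv_lhs => rw [h1]
  rw [map_sum, h.sum _ fun c _ => (hF.clsF hN _).opP hA B]
  refine Finset.sum_congr rfl fun c _ => ?_
  rw [← h.smul k _ _ ((hF.clsF hN _).opP hA 0), ← map_smul, ← cj_tr hF.gd hN hB, opP_opP hA,
    one_mul, lin_zero, zero_add]

/-- The conjugate of a translate is a translate of the conjugate. -/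
theorem cj_int (h : FC e χ) (h' : FC e χ')
    (hc : ∀ k F, MF k F → IntC F → χ' F = ρ (χ F)) (hA : IsSim A cA) (B : Ix → ℚ) :
    ∃ B' : Ix → ℚ, ∀ k F, MF k F → IntC F → F ∈ GZ → χ' (opP A B' F) = ρ (χ (opP A B F)) := by
  obtain ⟨n, hn⟩ := c2_root e ρ B
  obtain ⟨N, hN, hB⟩ := exists_den B
  refine ⟨(n : ℚ) • B, fun k F hF iF hZ => ?_⟩
  rw [cj_val h hA hN hB hF hZ,
    cj_val h' hA hN (B := (n : ℚ) • B) (by rw [smul_comm]; exact Lam.nsmul hB n) hF hZ, map_sum]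
  refine Finset.sum_congr rfl fun c _ => ?_
  have h1 := hF.clsF hN (vec (rp c))
  rw [map_mul, hn _ (vec_mem _), hc k _ (h1.opP hA 0) (cj_ic h1.gd (fun T => ?_) hA)]
  rw [cf_clsF hF.gd hN, clc]
  split_ifs
  exacts [iF T, ⟨0, Int.cast_zero.symm⟩]

/-- The derivative is close to a combination of class sums. -/
theorem cj_del {k : ℤ} {F : RQ e} (hF : MF k F) (iF : IntC F) (l : Ix) {ε : ℝ} (hε : 0 < ε) :
    ∃ G : RQ e, MF k G ∧ IntC G ∧ (TWE e).Bd ε ((TWE e).del l F - G) := by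
  have hp : ‖(p : ℂ_[p])‖ < 1 := by
    rw [← map_natCast (algebraMap ℚ_[p] ℂ_[p]) p, norm_algebraMap']
    exact Padic.norm_p_lt_one
  obtain ⟨j, hj⟩ := exists_pow_lt_of_lt_one hε hp
  have hN := pow_pos (Fact.out : p.Prime).pos j
  rw [← norm_pow, ← Nat.cast_pow] at hj
  generalize p ^ j = N at hN hj
  have iF' := (zi_iff F).2 iF
  refine ⟨∑ c : Ix → Fin N, (rp c l : RQ e) * (TWE e).cs N (rp c) F, ?_, (zi_iff _).1 ?_,
    fun T => ?_⟩
  · rw [AddSubmonoidClass.coe_finsetSum]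
    refine MF.sum _ fun c _ => ?_
    rw [← zsmul_eq_mul, AddSubgroupClass.coe_zsmul, TWE_cs hN, ← Int.cast_smul_eq_zsmul ℂ]
    exact (hF.clsF hN _).smul _
  · exact (TWE e).ZR.sum_mem fun c _ => mul_mem (intCast_mem _ _) (iF'.cs hN _)
  · obtain ⟨c, h0, h1⟩ := TW.tbas2_single (p := p) hN T
    obtain ⟨n, hn⟩ := h0 l
    rw [map_sub, Pi.sub_apply, map_sum, Finset.sum_apply, h1 _ fun d hd => by
      rw [TW.co_int, (TWE e).co_cs _ _ _ _ hN, if_neg hd, mul_zero], TW.co_int,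
      (TWE e).co_cs _ _ _ _ hN, if_pos h0, (TWE e).co_del, ← sub_mul, ← Int.cast_sub, hn,
      Int.cast_mul, Int.cast_natCast, norm_mul, norm_mul]
    exact (mul_le_of_le_one_right (by positivity) (iF'.bd T)).trans
      ((mul_le_of_le_one_right (norm_nonneg _)
        (IsUltrametricDist.norm_intCast_le_one _ n)).trans hj.le)

/-- The Taylor series of conjugate characters are conjugate on integral forms. -/
theorem cj_ts {ψ ψ' : RQ e →+* ℂ_[p]} (hρ : ∀ z, ‖ρ z‖ = ‖z‖) (h : (TWE e).Ch ψ)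
    (h' : (TWE e).Ch ψ') (hc : ∀ k (F : RQ e), MF k F → IntC F → ψ' F = ρ (ψ F))
    {τ τ' : RQ e →+* PS Ix ℂ_[p]} (hτ : (TWE e).Ts ψ τ) (hτ' : (TWE e).Ts ψ' τ') {k : ℤ}
    {F : RQ e} (hF : MF k F) (iF : IntC F) : τ' F = MvPowerSeries.map ρ (τ F) := by
  let P : RQ e → Prop := fun G => ∀ ε : ℝ, 0 < ε →
    ∃ G' : RQ e, MF k G' ∧ IntC G' ∧ (TWE e).Bd ε (G - G')
  have h1 : ∀ l G, P G → P ((TWE e).del l G) := fun l G hG ε hε => by
    obtain ⟨G', a1, a2, a3⟩ := hG ε hε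
    obtain ⟨G'', b1, b2, b3⟩ := cj_del a1 a2 l hε
    refine ⟨G'', b1, b2, ?_⟩
    have h2 := (a3.del l).add b3
    rwa [← add_sub_assoc, ← TW.del_add, sub_add_cancel] at h2
  have h2 : ∀ G, P G → ψ' G = ρ (ψ G) := fun G hG => by
    refine sub_eq_zero.1 (norm_le_zero_iff.1 (le_of_forall_pos_le_add fun ε hε => ?_))
    obtain ⟨G', a1, a2, a3⟩ := hG ε hε
    rw [zero_add, show ψ' G - ρ (ψ G) = ψ' (G - G') + -ρ (ψ (G - G')) by
      rw [map_sub, map_sub, map_sub, hc k G' a1 a2]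
      ring]
    exact (IsUltrametricDist.norm_add_le_max _ _).trans
      (max_le (h' _ _ hε.le a3) (by rw [norm_neg, hρ]; exact h _ _ hε.le a3))
  exact sub_eq_zero.1 (odeu (fun G : {G // P G} => τ' G - MvPowerSeries.map ρ (τ G))
    (fun G => by rw [map_sub, constantCoeff_map, hτ.const, hτ'.const, h2 _ G.2, sub_self])
    (fun l G => Ideal.subset_span ⟨⟨_, h1 l _ G.2⟩, by
      rw [map_sub, pderiv_map', hτ.der, hτ'.der]⟩)
    ⟨F, fun ε hε => ⟨F, hF, iF, fun T => by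
      rw [sub_self, map_zero, Pi.zero_apply, norm_zero]
      exact hε.le⟩⟩)

/-- Every parabolic translate of the character is the character of a point of the orbit. -/
theorem cj_pt (h : FC e χ) {x : HH} {c : ℂ} (hc : c ≠ 0)
    (hT : ∀ k F, MI Gam k F → F x = c ^ k * e (χ F)) (hΔ : Δ ≤ Gam) (hi : Δ.relIndex Gam ≠ 0)
    (hA : IsSim A cA) (B : Ix → ℚ) : ∃ g ∈ GG, ∃ d : ℂ, d ≠ 0 ∧
      ∀ k F, MI Δ k F → F (ofC (act g x)) = d ^ k * e (χ (opP A B F)) := by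
  obtain ⟨g, hg, hP⟩ := exists_isP hA B
  obtain ⟨Δ', h1, h2, h3⟩ := exists_level hΔ hi hg
  obtain ⟨γ, hγ, h4⟩ := h.match0 hc hT h1 h2
  have hG := mul_mem hg (Gam_le hγ)
  have hj := (act_spec hG x.2).1
  refine ⟨g * γ, hG, jf (g * γ) x * c, mul_ne_zero hj hc, fun k F hF => ?_⟩
  have h5 := h4 k _ ⟨hF.1.slash hg, fun δ hδ => by
    have h6 := h3 δ hδ _ (one_mem _) _ (one_mem _)
    rw [one_mul, mul_one] at h6
    rw [← sl_mul k hg (Gam_le (h1 hδ)), ← inv_mul_cancel_right (g * δ) g,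
      sl_mul k (Gam_le (hΔ h6)) hg, hF.2 _ h6]⟩
  rw [← sl_mul k hg (Gam_le hγ), hP.sl_eq, Rat.cast_one, one_zpow, one_smul] at h5
  rw [mul_zpow, mul_assoc, ← h5, sl, ← mul_assoc, zpow_neg,
    mul_inv_cancel₀ (zpow_ne_zero k hj), one_mul]

end Pool.Agent.E7
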