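import Pool.Agent.Lib.MP_7e5527_ag.EG.St
import Pool.Agent.Lib.MP_7e5527_ag.EA.CO

/-! The hypotheses on the points, for functions on the domain. -/

noncomputable section

namespace Pool.Agent.E7

variable {p : ℕ} [Fact p.Prime] {e : ℂ_[p] ≃+* ℂ} {χ : ((Ix → ℂ) → ℂ) → ℂ_[p]} {r : ℕ}

theorem Ktz.fc {Z : HH} (h : Ktz e χ Z) (h1 : χ (ext 1) = 1) :
    FC e (fun F => χ (ext F)) ∧ (∀ (n : ℕ) (k : Fin n → ℤ) (F : Fin n → Fn),
      (∀ i, MF (k i) (F i)) → (∀ T, ‖e.symm (∑ i, cf (F i) T)‖ ≤ 1) →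
        ‖∑ i, χ (ext (F i))‖ ≤ 1) ∧
      ∃ c : ℂ, c ≠ 0 ∧ ∀ k F, MI Gam k F → F Z = c ^ k * e (χ (ext F)) := by
  obtain ⟨hs, hm, hb, c, hc, hl⟩ := h
  refine ⟨⟨h1, fun k F G hF hG => ?_, fun k l F G hF hG => hm _ _ _ _ _ _ hF.isForm hG.isForm,
    fun k F x hF => hs _ _ _ x hF.isForm⟩, fun n k F hF => hb n k _ _ fun i => (hF i).isForm,
    c, hc, fun k F hF => ?_⟩
  · refine qo_zero hs hb hF.isForm hG.isForm ?_
    rw [← (hF.gd.spec.add hG.gd.spec).cf_eq]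
    exact (hF.add hG).isForm
  · have a1 := hl _ _ _ (isMF_ext hF.1.gd hF.2)
    rwa [ext, ofC_coe] at a1

theorem Ktz.ordB {Z0 : HH} (h : Ktz e χ Z0) (h' : OrdR r χ) :
    ∃ c k0 S0, OrdB e Z0 (fun F => χ (ext F)) c k0 S0 ∧ NcR (fun F => χ (ext F)) k0 r := by
  obtain ⟨k0, S, hk, hS, hr, ha, hn⟩ := h'
  have ⟨hs, hm, hb, _⟩ := h
  have dep : ∀ {k : ℤ} {G : Fn} (H : (Ix → ℂ) → ℂ), MF k G → (∀ Z : HH, H Z = G Z) →
      χ H = χ (ext G) := fun {k G} H hG hH => by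
    have h1 := qo_smul hG.isForm 0
    have h2 := qo_zero hs hb hG.isForm h1 (H := H) (by
      rw [zero_smul, add_zero]
      exact hG.isForm.congr fun Z hZ => by rw [ext, ofC_eq hZ, ← hH])
    rwa [hs _ _ _ _ hG.isForm, map_zero, zero_mul, add_zero] at h2
  have hp : 0 < p := (Fact.out : p.Prime).pos
  have red : ∀ A t B, IsSim A t → ∀ T0 ∈ Lam, ∃ G ∈ {G : Fn | ∃ a ∈ S, ∃ F,
      (IsMF k0 F fun T => a T) ∧ G = res F}, MF k0 (opP A B (clsF p T0 G)) ∧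
        ‖χ (ext (opP A B (clsF p T0 G)))‖ = 1 := fun A t B hA T0 hT => by
    obtain ⟨a, a1, ⟨F, a2⟩, a3⟩ := hr A t B T0 hT hA
    have a4 := (a2.mf.clsF hp T0).opP hA B
    refine ⟨res F, ⟨a, a1, F, a2, rfl⟩, a4, ?_⟩
    refine (congrArg norm (dep _ a4 fun Z => ?_)).symm.trans a3
    rw [opP_apply, clsF, cls, a2.good.cf_eq, coe_ofC (HH.add_toR (HH.lin_mem Z.2 hA) B)]
    refine tsum_congr fun T => ?_
    rw [clc, ite_mul, zero_mul]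
    rfl
  obtain ⟨h1, h2, c, hc, h3⟩ := h.fc (by
    obtain ⟨G, -, a1, a2⟩ := red 1 1 0 IsSim.one 0 Lam.zero
    have a3 : χ (ext (1 * _)) = _ := hm _ _ _ _ _ _ MF.one.isForm a1.isForm
    rw [one_mul] at a3
    refine mul_right_cancel₀ (norm_ne_zero_iff.1 (a2 ▸ one_ne_zero)) ?_
    rw [one_mul]
    exact a3.symm)
  refine ⟨c, k0, {G : Fn | ∃ a ∈ S, ∃ F, (IsMF k0 F fun T => a T) ∧ G = res F},
    ⟨hc, hk, ?_, ?_, h1, h2, h3, fun A t B hA T0 hT => ?_,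
      fun k F G hF hG => ha _ _ _ _ _ hF.isForm hG.isForm⟩,
    fun s f κ hf hσ H => hn s f κ hf hσ.iso hσ.res fun j B B' hB hB' hT => ?_⟩
  · refine (hS.image fun a (Z : HH) => ∑' T, (a T : ℂ) * eT T Z).subset ?_
    rintro _ ⟨a, a1, F, a2, rfl⟩
    exact ⟨a, a1, funext fun Z => (a2.good.sum Z).tsum_eq⟩
  · rintro _ ⟨a, -, F, a2, rfl⟩
    exact qo_res a2
  · obtain ⟨G, a1, -, a2⟩ := red A t B hA T0 hT
    exact ⟨G, a1, a2⟩
  · obtain ⟨d, a1, a2⟩ := H j B B' hB hB' hT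
    refine ⟨d, a1, fun n F a a3 => ?_⟩
    have a4 : ∀ B, χ (fun Z => F (Z + toR ℂ B)) = χ (ext (opP 1 B (res F))) := fun B =>
      dep _ (a3.mf.opP IsSim.one B) fun Z => by
        rw [opP_apply, lin_one, res, coe_ofC (HH.add_toR Z.2 B)]
    rw [a4, a4]
    exact a2 n _ (qo_res a3).1 (qo_res a3).2

theorem cj_ext {χ' : ((Ix → ℂ) → ℂ) → ℂ_[p]} {ρ : ℂ_[p] →+* ℂ_[p]}
    (h : ∀ k F (a : (Ix → ℚ) → ℤ), (IsForm k F fun T => a T) → χ' F = ρ (χ F)) (k : ℤ) (F : Fn)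
    (hF : MF k F) (iF : IntC F) : χ' (ext F) = ρ (χ (ext F)) := by
  choose a ha using iF
  exact h k _ a (funext ha ▸ hF.isForm)

end Pool.Agent.E7
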