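import Pool.Agent.Lib.MP_7e5527_ag.EG.A
import Pool.Agent.Lib.MP_7e5527_ag.EG.C
import Pool.Agent.Lib.MP_7e5527_ag.EG.D
import Pool.Agent.Lib.MP_7e5527_ag.EG.F
import Pool.Agent.Lib.MP_7e5527_ag.EG.G
import Pool.Agent.Lib.MP_7e5527_ag.EG.H
import Pool.Agent.Lib.MP_7e5527_ag.EF.C5
import Pool.Agent.Lib.MP_7e5527_ag.EA.CZ
import Pool.Agent.Lib.MP_7e5527_ag.EL.SH

/-! Assembly. -/

open MvPowerSeries Filter

noncomputable section

namespace Pool.Agent.E7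

variable {p : ℕ} [Fact p.Prime] {e : ℂ_[p] ≃+* ℂ} {Δ : Subgroup Gb} {k0 r d m : ℕ}

/-- The contradiction at one point and its conjugates. -/
theorem oc_pt (hΔ : Δ ≤ GamP) (hi : Δ.relIndex Gam ≠ 0) (hn : ∀ B ∈ Lam, nE (toR ℂ B) ∈ Δ)
    (hk : 0 < k0) (E : Fr (TWE e)) (hE : ∀ o, MI Δ k0 (E.oe o)) (iE : ∀ o, IntC (E.oe o))
    {ψ : RQ e →+* ℂ_[p]} (hψ : E.Gp ψ) {ρ : Fin m → ℂ_[p] →+* ℂ_[p]} (hρ : ∀ i z, ‖ρ i z‖ = ‖z‖)
    {φ : Fin m → RQ e →+* ℂ_[p]} (hφ : ∀ i, E.Gp (φ i)) (hl : ∀ i, (TWE e).Lin (φ i))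
    (hj : ∀ i k (F : RQ e), MF k F → IntC F → φ i F = ρ i (ψ F)) (Z : Fin m → HH)
    {c : Fin m → ℂ} (hc : ∀ i, c i ≠ 0)
    (hv : ∀ i (n : ℕ) (F : RQ e), MI Δ n F → (F : Fn) (Z i) = c i ^ n * e (φ i F))
    (hg : JG fun i => (Z i : Ix → ℂ)) (hm : 0 < m) (hd : r + m * d ≤ m * 27)
    {H : (Fin (d + 1) → Ix) → MvPolynomial (Fin (d + 1)) ℤ_[p]} (hH : ∀ s, H s ≠ 0)
    (ho : hψ.Out r ρ (Set.range fun s => MvPolynomial.rename s (H s))) : False := by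
  obtain ⟨τ, hτ⟩ := (TWE e).exists_ts ψ
  choose τs hs using fun i => (TWE e).exists_ts (φ i)
  choose D Λ Λ' ζ T Q0 Q1 a1 a2 a3 a4 a5 a6 a7 a8 a9 using fun i =>
    cx_ld hΔ hi hn hk E hE (hφ i) (hl i) (Z i) (hc i) (hv i) (hs i)
  obtain ⟨y, y1, y2, y3, y4⟩ := ho.dep e hτ
  choose w w1 w2 w3 w4 using fun i =>
    arc_tr (Λ i) (Λ' i) (a1 i) (a2 i) (a3 i) (a4 i) (y1 i) (y2 i)
  choose B hB using fun i => exists_tr (Z i).2
  have hi' : Function.Injective ((e : ℂ_[p] →+* ℂ).comp (UAP.zp p)) := e.injective.comp (c5_inj p)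
  have hu : IsUnit (τ E.e0) := by
    rw [isUnit_iff_constantCoeff, hτ.const]
    exact hψ.unit
  have h0 : ∀ i j, (Λ' i).x j = map ((e : ℂ_[p] →+* ℂ).comp ((ρ i).comp (e.symm : ℂ →+* ℂ_[p])))
      (map (e : ℂ_[p] →+* ℂ) (E.xc τ j)) := fun i j => by
    have h1 := fun o => cj_ts (hρ i) hψ.ch (hφ i).ch (hj i) hτ (hs i) (hE o).1 (iE o)
    have h2 : E.xc (τs i) j = map (ρ i) (E.xc τ j) := by
      rw [Fr.xc, Fr.xc, Fr.nz, Fr.nz, pow_one, pow_one, map_mul, c4_inv _ hu]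
      exact congrArg₂ (· * Ring.inverse ·) (h1 (some j)) (h1 none)
    rw [a5, h2]
    refine MvPowerSeries.ext fun ν => ?_
    simp only [coeff_map, RingHom.comp_apply, RingHom.coe_coe, RingEquiv.symm_apply_apply]
  have h1 : ∀ i, Dep ℂ d fun j => sb (w i) ((Λ i).x j) := fun i => dep_iff.2 fun s =>
    ⟨MvPolynomial.map ((e : ℂ_[p] →+* ℂ).comp (UAP.zp p)) (H s),
      fun h => hH s (MvPolynomial.map_injective _ hi' (h.trans (map_zero _).symm)), by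
        have h2 := y4 _ ⟨s, rfl⟩ i
        rw [MvPolynomial.eval₂_rename] at h2
        rw [MvPolynomial.aeval_def, MvPolynomial.eval₂_map]
        simp only [w4, h0]
        exact h2⟩
  refine og_end (r := r) (d := d) (Z := fun i => Z i + toR ℂ (B i)) (w := w) hm hd hB ?_ w1 w2
    (y3.alg fun q => ?_) fun i => (h1 i).alg fun j => (Λ i).arc_alg (w1 i) ?_
  · simpa only [act_nE] using hg.act (fun i => (Z i).2) (g := fun i => nE (toR ℂ (B i)))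
      fun i => nE_mem_GG (B i)
  · exact algS_le (x := fun q : Fin m × Ix => y q.1 q.2) (fun l => self_mem_algS (q.1, l))
      (w3 q.1 q.2)
  · exact pt_tr (hΔ.trans GamP_le) hi hk hE (Z i).2 (hB i) (a6 i) (a7 i) (a8 i) (Λ i).jac_unit
      (a9 i) j

/-- Equations of the image of the variety in the coordinates of a frame. -/
theorem oc_eq (hΔ : Δ ≤ Gam) (hi : Δ.relIndex Gam ≠ 0) {V : Set (Ix → ℂ)}
    (hV : ∀ (k : ℤ) (G : Fin (d + 2) → (Ix → ℂ) → ℂ), (∀ i, ∃ a, IsForm k (G i) a) →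
      ∃ (n : ℕ) (P : MvPolynomial (Fin (d + 2)) ℂ), P ≠ 0 ∧ P.IsHomogeneous n ∧
        ∀ Z ∈ V, MvPolynomial.eval (fun i => G i Z) P = 0) (U : Ultrafilter ℕ)
    {f : Option Ix → Fn} (hf : ∀ o, MI Δ k0 (f o)) {Y : ℕ → HH} (hY : ∀ n, (Y n : Ix → ℂ) ∈ V)
    {γ : ℕ → Gb} (hγ : ∀ n, γ n ∈ Gam) {ξ : ℕ → Ix → ℂ_[p]}
    (hξ : ∀ n l, IsAlgebraic ℚ_[p] (ξ n l)) (h0 : ∀ n, sl k0 (γ n) (f none) (Y n) ≠ 0)
    (h1 : ∀ n l, sl k0 (γ n) (f (some l)) (Y n) = sl k0 (γ n) (f none) (Y n) * e (ξ n l))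
    (s : Fin (d + 1) → Ix) : ∃ H : MvPolynomial (Fin (d + 1)) ℤ_[p], H ≠ 0 ∧
      ∀ᶠ n in (U : Filter ℕ), MvPolynomial.eval₂ (UAP.zp p) (fun a => ξ n (s a)) H = 0 := by
  have h2 : ∀ o, ∃ G, MF k0 G ∧ ∀ᶠ n in (U : Filter ℕ), sl k0 (γ n) (f o) = G := fun o => by
    obtain ⟨_, ⟨g, hg, rfl⟩, h⟩ := (Ultrafilter.eventually_exists_mem_iff (f := U)
      (P := fun G n => sl k0 (γ n) (f o) = G) ((hf o).2.finite hΔ hi)).1
      (.of_forall fun n => ⟨_, ⟨γ n, hγ n, rfl⟩, rfl⟩)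
    exact ⟨_, (hf o).1.slash (Gam_le hg), h⟩
  choose G g1 g2 using h2
  obtain ⟨N, P, p0, p1, p2⟩ := hV k0 (fun i => ext (G ((finSuccEquiv (d + 1) i).map s)))
    fun i => ⟨_, (g1 _).isForm⟩
  have p3 : (MvPolynomial.rename (finSuccEquiv (d + 1)) P).IsHomogeneous N :=
    p1.rename_isHomogeneous
  let Dh : MvPolynomial (Option (Fin (d + 1))) ℂ →ₐ[ℂ] MvPolynomial (Fin (d + 1)) ℂ :=
    MvPolynomial.aeval fun o => o.elim 1 MvPolynomial.X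
  refine desc_rel U (fun n a => hξ n (s a)) (P := MvPolynomial.map (e.symm : ℂ →+* ℂ_[p])
    (Dh (MvPolynomial.rename (finSuccEquiv (d + 1)) P))) (fun h => p0 ?_) ?_
  · exact MvPolynomial.rename_injective _ (finSuccEquiv (d + 1)).injective ((FS.cf2_deh p3
      (MvPolynomial.map_injective _ (RingHom.injective _) (h.trans (map_zero _).symm))).trans
        (map_zero _).symm)
  · filter_upwards [eventually_all.2 g2] with n hn
    have h3 := p2 _ (hY n)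
    have h4 := wrc2_scale p3 (sl k0 (γ n) (f none) (Y n))
      fun o : Option (Fin (d + 1)) => o.elim 1 fun a => e (ξ n (s a))
    have h5 : MvPolynomial.aeval (fun o : Option (Fin (d + 1)) => sl k0 (γ n) (f none) (Y n) *
        o.elim 1 fun a => e (ξ n (s a))) (MvPolynomial.rename (finSuccEquiv (d + 1)) P) = 0 := by
      rw [MvPolynomial.aeval_rename, ← h3]
      refine congrArg (MvPolynomial.eval · P) (funext fun i => ?_)
      rw [Function.comp_apply, ext, ofC_coe, ← hn]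
      cases finSuccEquiv (d + 1) i with
      | none => exact mul_one _
      | some a => exact (h1 n _).symm
    have h6 := (mul_eq_zero.1 (h4.symm.trans h5)).resolve_left (pow_ne_zero _ (h0 n))
    refine e.injective ?_
    rw [map_zero, ← h6, MvPolynomial.eval_map]
    refine (MvPolynomial.eval₂_comp_left (e : ℂ_[p] →+* ℂ) _ _ _).trans ?_
    rw [show (e : ℂ_[p] →+* ℂ).comp (e.symm : ℂ →+* ℂ_[p]) = RingHom.id ℂ from
      RingHom.ext fun z => e.apply_symm_apply z]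
    refine (MvPolynomial.comp_aeval_apply _ (MvPolynomial.aeval fun a => e (ξ n (s a))) _).trans
      (congrArg (MvPolynomial.aeval · _) (funext fun o => ?_))
    cases o <;> simp

theorem oc_same {χ : Fn → ℂ_[p]} {c : ℂ} {Z0 : HH} {S0 : Set Fn} (O : OrdB e Z0 χ c k0 S0)
    (hc : NcR χ k0 r) (hr : 0 < r) (hm : 0 < m) (hd : r + m * d ≤ m * 27) {x : Fin m → HH}
    (hg : JG fun i => (x i : Ix → ℂ)) {ρ : Fin m → ℂ_[p] →+* ℂ_[p]} (hρ : ∀ i z, ‖ρ i z‖ = ‖z‖)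
    {η : Fin m → Fn → ℂ_[p]} (hη : ∀ i, FC e (η i)) {ηb : Fin m → CQ e →+* ℂ_[p]}
    (hb : ∀ i, Ext e (η i) (ηb i)) {b : Fin m → ℂ} (b0 : ∀ i, b i ≠ 0)
    (b1 : ∀ i k F, MI Gam k F → F (x i) = b i ^ k * e (η i F))
    (hj : ∀ i k F, MF k F → IntC F → η i F = ρ i (χ F)) {V : Set (Ix → ℂ)} (hH : V ⊆ HH)
    (hV : ∀ (k : ℤ) (G : Fin (d + 2) → (Ix → ℂ) → ℂ), (∀ i, ∃ a, IsForm k (G i) a) →
      ∃ (n : ℕ) (P : MvPolynomial (Fin (d + 2)) ℂ), P ≠ 0 ∧ P.IsHomogeneous n ∧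
        ∀ Z ∈ V, MvPolynomial.eval (fun i => G i Z) P = 0) :
    ∃ S : Set (Ix → ℂ), S.Finite ∧ S ⊆ HH ∧ ∀ Z, Hecke Z0 Z → Z ∈ V →
      ∃ Z' ∈ S, SamePt Z Z' := by
  by_contra hn
  have h1 : 1 < p := (Fact.out : p.Prime).one_lt
  obtain ⟨N, hN, hp, hD⟩ := exists_deep p
  obtain ⟨χb, hx⟩ := exists_ext O.fc O.bd
  have hi : (DD p N ⊓ GamP).relIndex Gam ≠ 0 :=
    Subgroup.relIndex_inf_ne_zero (DD_index h1 hN) GamP_index
  have hΔ : DD p N ⊓ GamP ≤ Gam := inf_le_left.trans (DD_le p N)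
  obtain ⟨X⟩ := O.exists_pts hΔ hi hn
  obtain ⟨D, e1, e2⟩ := exists_hdat X O hc hx hN hp hD
  have hE : ∀ o, MI (DD p N ⊓ GamP) k0 (D.E.oe o) := fun o => e1 ▸
    ⟨(frm_mi _ hD o).1, ((frm_mi _ hD o).2.mono (DD_le_Dp p N)).mono inf_le_left⟩
  choose Z t z1 ht z2 using X.val
  choose Y y1 t' ht' y2 using X.lv
  have hv : ∀ n (a : ℕ) (F : RQ e), MI (DD p N ⊓ GamP) a F →
      (F : Fn) (Z n) = t n ^ a * e (D.ψ n F) := fun n a F hF => by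
    rw [z2 n a F hF, e2, chAB_eq hx _ _ hF.1, _root_.zpow_natCast]
  have h6 : ∀ n, SamePt (⟨Y n, hH (y1 n)⟩ : HH) (Z n) := fun n =>
    ⟨t' n / t n, div_ne_zero (ht' n) (ht n), fun k H b hH' => by
      have h7 := z2 n k _ ⟨hH'.mf, hH'.inv_Gam.mono hΔ⟩
      rw [← ext_res H (hH (y1 n)), y2 n k _ ⟨hH'.mf, hH'.inv_Gam⟩, show H (Z n) = _ from h7,
        div_zpow, ← mul_assoc, div_mul_cancel₀ _ (zpow_ne_zero _ (ht n))]⟩
  choose γ hγ u hu hs using fun n => same_lift hΔ hi (h6 n)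
  choose H H0 H1 using oc_eq (e := e) hΔ hi hV (hyperfilter ℕ) hE
    (Y := fun n => ⟨Y n, hH (y1 n)⟩) y1 hγ (ξ := fun n => D.E.xc (D.ψ n))
    (fun n l => e1 ▸ e2 ▸ X.alg O hx n 0 l)
    (fun n => by
      rw [hs n _ _ (hE none), hv n _ _ (hE none)]
      exact mul_ne_zero (zpow_ne_zero _ (hu n))
        (mul_ne_zero (pow_ne_zero _ (ht n)) ((D.gp n).unit.map e).ne_zero))
    (fun n l => by
      rw [hs n _ _ (hE none), hv n _ _ (hE none), hs n _ _ (hE (some l)), hv n _ _ (hE (some l)),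
        mul_assoc, mul_assoc, ← map_mul, Fr.xc, Fr.nz, pow_one, mul_comm (D.ψ n _) (_ * _)]
      exact congrArg (fun z => _ * (_ * e z))
        (Ring.inverse_mul_cancel_right _ _ (D.gp n).unit).symm)
  obtain ⟨n, -, ho⟩ := hcore_ev D hyperfilter_le_cofinite hr hm hρ
    (Set.finite_range fun s => MvPolynomial.rename s (H s))
    (by
      rintro _ ⟨s, rfl⟩
      filter_upwards [H1 s] with n hn
      rwa [MvPolynomial.eval₂_rename])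
    (Q := fun _ => True) (.of_forall fun _ => trivial)
  choose B hB using fun i => cj_int O.fc (hη i) (hj i) (X.sim n) (X.B n)
  choose g g1 v v0 v1 using fun i => cj_pt (hη i) (b0 i) (b1 i) hΔ hi (X.sim n) (B i)
  have hG := fun o => O.mem _ (X.mem o)
  have h7 : ∀ i k (F : RQ e), MF k F → IntC F →
      chAB (ηb i) (X.sim n) (B i) F = ρ i (D.ψ n F) := fun i k F hF iF => by
    rw [chAB_eq (hb i) _ _ hF, hB i k F hF iF F.2.2, e2, chAB_eq hx _ _ hF]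
  refine oc_pt inf_le_right hi (fun B hB => ⟨nE_mem_DD h1 N hB, nE_mem_GamP hB⟩) O.pos D.E hE
    (fun o => e1 ▸ frm_int hG o) (D.gp n) hρ (φ := fun i => chAB (ηb i) (X.sim n) (B i))
    (fun i => e1 ▸ frm_gp hG (hb i) _ _ fun o => ?_) (fun i => chAB_lin (hb i) _ _) h7
    (fun i => ofC (act (g i) (x i))) v0 (fun i a F hF => ?_) ?_ hm hd H0 ho
  · rw [← X.unit n o, ← frm_oe hG o, hB i _ _ (frm_mi hG hD o).1 (frm_int hG o)
      ((frm e X.G hG).oe o).2.2, hρ]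
  · rw [v1 i a F hF, chAB_eq (hb i) _ _ hF.1, _root_.zpow_natCast]
  · simp only [fun i => coe_ofC (act_spec (g1 i) (x i).2).2.1]
    exact hg.act (fun i => (x i).2) g1

theorem oc_main (e : ℂ_[p] ≃+* ℂ) [NeZero m] (hr : 0 < r) (hd : r + m * d ≤ 27 * m)
    {x : Fin m → Ix → ℂ} {χ : Fin m → ((Ix → ℂ) → ℂ) → ℂ_[p]}
    (hx : ∀ i, x i ∈ HH ∧ Ktz e (χ i) (x i) ∧ ∃ ρ : ℂ_[p] →+* ℂ_[p], (∀ y, ‖ρ y‖ = ‖y‖) ∧
      ∀ k F (a : (Ix → ℚ) → ℤ), (IsForm k F fun T => a T) → χ i F = ρ (χ 0 F))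
    (hO : OrdR r (χ 0)) (hg : JG x) {V : Set (Ix → ℂ)} (hH : V ⊆ HH)
    (hV : ∀ (k : ℤ) (G : Fin (d + 2) → (Ix → ℂ) → ℂ), (∀ i, ∃ a, IsForm k (G i) a) →
      ∃ (n : ℕ) (P : MvPolynomial (Fin (d + 2)) ℂ), P ≠ 0 ∧ P.IsHomogeneous n ∧
        ∀ Z ∈ V, MvPolynomial.eval (fun i => G i Z) P = 0) :
    ∃ S : Set (Ix → ℂ), S.Finite ∧ S ⊆ HH ∧ ∀ Z ∈ Sig (x 0), Z ∈ V →
      (∀ a ∈ MT Z, ∀ b ∈ MT Z, a * b = b * a) ∨ ∃ s ∈ S, ∃ γ j, Mv γ s Z j := by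
  choose hx hK ρ hρ hj using hx
  obtain ⟨c, k0, S0, O, hc⟩ := Ktz.ordB (Z0 := ⟨x 0, hx 0⟩) (hK 0) hO
  choose f1 f2 b b0 b1 using fun i => Ktz.fc (Z := ⟨x i, hx i⟩) (hK i) (by
    rw [cj_ext (hj i) 0 1 MF.one fun T => ⟨if T = 0 then 1 else 0, by
      rw [GoodC.one.cf_eq]
      by_cases h : T = 0 <;> simp [h]⟩, show χ 0 (ext 1) = 1 from O.fc.one, map_one])
  choose ηb hb using fun i => exists_ext (f1 i) (f2 i)
  obtain ⟨S, s1, s2, s3⟩ := oc_same O hc hr (Nat.pos_of_neZero m) (mul_comm 27 m ▸ hd)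
    (x := fun i => ⟨x i, hx i⟩) hg hρ f1 hb b0 b1 (fun i => cj_ext (hj i)) hH hV
  choose! T t1 t2 t3 using fun s (hs : s ∈ HH) => same_fin hs
  have h1 : ⋃ s ∈ S, T s ⊆ HH := Set.iUnion₂_subset fun s hs => t2 s (s2 hs)
  refine ⟨⋃ s ∈ S, T s, s1.biUnion fun s hs => t1 s (s2 hs), h1,
    fun Z hZ hz => (sig_main (hx 0) (hg.gen 0) hZ).imp_right fun h => ?_⟩
  obtain ⟨s, hs, h2⟩ := s3 Z h hz
  obtain ⟨t, ht, γ, hγ, rfl⟩ := t3 s (s2 hs) Z hZ.1 h2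
  exact ⟨t, Set.mem_biUnion hs ht, γ, _, mv_of_Gam hγ (t2 s (s2 hs) ht)⟩

end Pool.Agent.E7
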