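import Pool.Agent.Lib.MP_7e5527_ag.EO.ODefs

/-! Definitions used in the statement: points of the Igusa tower, good ordinary reduction. -/

noncomputable section

namespace Pool.Agent.E7

/-- `χ` is a point of the Igusa tower over `Z`: a character of the ring of the forms of all levels
that is bounded by the size of the coefficients. -/
def Ktz {p : ℕ} [Fact p.Prime] (e : ℂ_[p] ≃+* ℂ) (χ : ((Ix → ℂ) → ℂ) → ℂ_[p]) (Z : Ix → ℂ) :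
    Prop :=
  (∀ k F a (x : ℂ), IsForm k F a → χ (x • F) = e.symm x * χ F) ∧
  (∀ k l F G a b, IsForm k F a → IsForm l G b → χ (F * G) = χ F * χ G) ∧
  (∀ (n : ℕ) (k : Fin n → ℤ) (F : Fin n → (Ix → ℂ) → ℂ) (a : Fin n → (Ix → ℚ) → ℂ),
    (∀ i, IsForm (k i) (F i) (a i)) → (∀ T, ‖e.symm (∑ i, a i T)‖ ≤ 1) → ‖∑ i, χ (F i)‖ ≤ 1) ∧
  ∃ c : ℂ, c ≠ 0 ∧ ∀ k F a, IsMF k F a → F Z = c ^ k * e (χ F)

/-- `χ` is algebraic over `ℚ_[p]`, has good reduction, and the centraliser of its Frobenius in the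
group of similitudes of the norm has dimension at most `r`. -/
def OrdR {p : ℕ} [Fact p.Prime] (r : ℕ) (χ : ((Ix → ℂ) → ℂ) → ℂ_[p]) : Prop :=
  ∃ (k0 : ℕ) (S : Set ((Ix → ℚ) → ℤ)), 0 < k0 ∧ S.Finite ∧
    (∀ A t B, ∀ T0 ∈ Lam, IsSim A t → ∃ a ∈ S, (∃ F, IsMF k0 F fun T => a T) ∧
      ‖χ fun Z => cls p a T0 (lin A Z + toR ℂ B)‖ = 1) ∧
    (∀ k F G a b, IsForm k F a → IsForm k G b →
      (∀ T, IsAlgebraic ℚ (a T) ∧ IsAlgebraic ℚ (b T)) → IsAlgebraic ℚ_[p] (χ F / χ G)) ∧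
    ∀ (s : ℂ_[p] →+* ℂ_[p]) (f : ℕ) (κ : Matrix Ix Ix ℚ_[p]), 0 < f → (∀ y, ‖s y‖ = ‖y‖) →
      (∀ y, ‖y‖ ≤ 1 → ‖s y - y ^ p ^ f‖ < 1) →
      (∀ (j : ℕ) (B B' : Ix → ℚ), (p : ℚ) ^ j • B ∈ Lam → (p : ℚ) ^ j • B' ∈ Lam →
        (∀ T ∈ Lam, ‖tr (toR ℚ_[p] T) (toR ℚ_[p] B' - κ.mulVec (toR ℚ_[p] B))‖ ≤ 1) →
        ∃ d : ℂ_[p], d ≠ 0 ∧ ∀ (n : ℕ) F (a : (Ix → ℚ) → ℤ), IsMF (n * k0) F (fun T => a T) →
          s (χ fun Z => F (Z + toR ℂ B)) = d ^ n * χ fun Z => F (Z + toR ℂ B')) →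
      ∀ q : Fin (r + 1) → Ix × Ix, ∃ P : MvPolynomial (Fin (r + 1)) ℚ_[p], P ≠ 0 ∧
        ∀ (g : Matrix Ix Ix ℚ_[p]) (t : ℚ_[p]), t ≠ 0 → (∀ x, nrm (g.mulVec x) = t * nrm x) →
          g * κ = κ * g → MvPolynomial.eval (fun a => g (q a).1 (q a).2) P = 0

end Pool.Agent.E7
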